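import Pool.Agent.AD.ChartFs
import Pool.Agent.H22.W.Def

/-!
# AD W Def: pseudo-lengths in charts of dimension `d`

The structure `H22.W.PseudoLength` does not depend on the dimension; here the facts which use charts are proved for `AD.Chart`.
-/

set_option autoImplicit false

open Topology Filter Metric

namespace Pool.Agent.AD

open Pool.Agent.H36.BP (EN fs wd)
open Pool.Agent.H14.PP (IsCone Tan CurveAt IsOpenPart)
open Pool.Agent.H22.W (PseudoLength isOpenPart_self tan_smul tan_mem tan_curve tan_entire fs_scale)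

variable {N d : ℕ} {X : Set (EN N)}

/-- the tangent vectors in a chart -/
theorem tan_chart (hX : IsCone X) (χ : Chart d X) {x v : EN N} (h : Tan X x v) (hU : x ∈ χ.U) :
    χ.q x ∈ ball (0 : Vd d) 2 ∧ ∃ c a : ℂ, c ≠ 0 ∧ x = c • χ.σ (χ.q x) ∧
      v = c • fderiv ℂ χ.σ (χ.q x) (fderiv ℂ χ.q x v) + a • x := by
  obtain ⟨F, hF, h0, h1⟩ := h
  subst h0
  obtain ⟨hq, hq', c, hc, hc0, hev⟩ := χ.curve hX hF hU
  obtain ⟨hball, heq⟩ := hev.self_of_nhds
  refine ⟨hball, c 0, deriv c 0 / c 0, hc0, heq, ?_⟩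
  have hs : AnalyticAt ℂ χ.σ (χ.q (F 0)) := χ.σ_an _ hball
  have h2 : HasDerivAt (fun z => χ.σ (χ.q (F z))) (fderiv ℂ χ.σ (χ.q (F 0)) (deriv (fun z => χ.q (F z)) 0)) 0 :=
    hs.differentiableAt.hasFDerivAt.comp_hasDerivAt (0 : ℂ) hq.differentiableAt.hasDerivAt
  have h3 : HasDerivAt (fun z => c z • χ.σ (χ.q (F z))) (c 0 • fderiv ℂ χ.σ (χ.q (F 0)) (deriv (fun z => χ.q (F z)) 0) +
      deriv c 0 • χ.σ (χ.q (F 0))) 0 := hc.differentiableAt.hasDerivAt.smul h2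
  have h4 : deriv F 0 = c 0 • fderiv ℂ χ.σ (χ.q (F 0)) (deriv (fun z => χ.q (F z)) 0) +
      deriv c 0 • χ.σ (χ.q (F 0)) := by
    have h5 : F =ᶠ[𝓝 0] fun z => c z • χ.σ (χ.q (F z)) := hev.mono fun z hz => hz.2
    rw [h5.deriv_eq]
    exact h3.deriv
  rw [h1] at h4 hq'
  rw [← hq']
  have h6 : (deriv c 0 / c 0) • F 0 = deriv c 0 • χ.σ (χ.q (F 0)) := by
    conv_lhs => rw [heq]
    rw [smul_smul, div_mul_cancel₀ _ hc0]
  rw [h6]
  exact h4

/-- the pseudo-length in a chart -/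
noncomputable def coef (n : PseudoLength X) (χ : Chart d X) (y : (Vd d) × (Vd d)) : ℝ :=
  n.toFun (χ.σ y.1) (fderiv ℂ χ.σ y.1 y.2)

theorem eq_coef (hX : IsCone X) (n : PseudoLength X) (χ : Chart d X) {x v : EN N} (h : Tan X x v)
    (hU : x ∈ χ.U) : n.toFun x v = coef n χ (χ.q x, fderiv ℂ χ.q x v) := by
  obtain ⟨hb, c, a, hc, h1, h2⟩ := tan_chart hX χ h hU
  have ht : Tan X (χ.σ (χ.q x)) (fderiv ℂ χ.σ (χ.q x) (fderiv ℂ χ.q x v)) :=
    χ.tan (isOpenPart_self hX) hb (χ.σ_mem _ hb).1 _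
  have h3 := n.inv hX ht hc (a * c)
  unfold coef
  rw [← h3]
  have h4 : c • fderiv ℂ χ.σ (χ.q x) (fderiv ℂ χ.q x v) + (a * c) • χ.σ (χ.q x) = v := by
    conv_rhs => rw [h2]
    congr 1
    conv_rhs => rw [h1]
    rw [smul_smul]
  rw [h4, ← h1]

theorem tan_sigma (hX : IsCone X) (χ : Chart d X) {p : Vd d} (hp : p ∈ ball (0 : Vd d) 2) (w : Vd d) :
    Tan X (χ.σ p) (fderiv ℂ χ.σ p w) := χ.tan (isOpenPart_self hX) hp (χ.σ_mem p hp).1 _

theorem coef_cont (hX : IsCone X) (n : PseudoLength X) (χ : Chart d X) {p : Vd d} (hp : p ∈ ball (0 : Vd d) 2)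
    (w : Vd d) : ContinuousAt (coef n χ) (p, w) := by
  have hs : AnalyticAt ℂ χ.σ p := χ.σ_an p hp
  have h1 : Tendsto (fun y : (Vd d) × (Vd d) => χ.σ y.1) (𝓝 (p, w)) (𝓝 (χ.σ p)) :=
    hs.continuousAt.tendsto.comp continuousAt_fst.tendsto
  have h2 : Tendsto (fun y : (Vd d) × (Vd d) => fderiv ℂ χ.σ y.1) (𝓝 (p, w)) (𝓝 (fderiv ℂ χ.σ p)) :=
    hs.fderiv.continuousAt.tendsto.comp continuousAt_fst.tendsto
  have hcb : Continuous fun p : ((Vd d) →L[ℂ] EN N) × (Vd d) => p.1 p.2 := isBoundedBilinearMap_apply.continuous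
  have h3 : Tendsto (fun y : (Vd d) × (Vd d) => fderiv ℂ χ.σ y.1 y.2) (𝓝 (p, w)) (𝓝 (fderiv ℂ χ.σ p w)) :=
    (hcb.tendsto (fderiv ℂ χ.σ p, w)).comp (h2.prodMk_nhds continuousAt_snd.tendsto)
  refine n.tendsto ?_ (tan_sigma hX χ hp w) h1 h3
  have h4 : ∀ᶠ y in 𝓝 (p, w), y.1 ∈ ball (0 : Vd d) 2 := continuousAt_fst.eventually (isOpen_ball.mem_nhds hp)
  filter_upwards [h4] with y hy
  exact tan_sigma hX χ hy _

theorem coef_smul (hX : IsCone X) (n : PseudoLength X) (χ : Chart d X) {p : Vd d} (hp : p ∈ ball (0 : Vd d) 2)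
    (w : Vd d) (a : ℂ) : coef n χ (p, a • w) = ‖a‖ * coef n χ (p, w) := by
  unfold coef
  simp only [map_smul]
  exact n.smul _ _ (tan_sigma hX χ hp w) _

/-- the bound in the middle of a chart -/
theorem coef_bound (hX : IsCone X) (n : PseudoLength X) (χ : Chart d X) :
    ∃ C : ℝ, 0 ≤ C ∧ ∀ p ∈ closedBall (0 : Vd d) 1, ∀ w, coef n χ (p, w) ≤ C * ‖w‖ := by
  have hcomp : IsCompact (closedBall (0 : Vd d) 1 ×ˢ sphere (0 : Vd d) 1) :=
    (isCompact_closedBall _ _).prod (isCompact_sphere _ _)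
  obtain ⟨C, hC⟩ := hcomp.exists_bound_of_continuousOn (f := coef n χ) (by
    rintro ⟨p, w⟩ ⟨hp, -⟩
    exact (coef_cont hX n χ (closedBall_subset_ball (by norm_num) hp) w).continuousWithinAt)
  refine ⟨max C 0, le_max_right _ _, fun p hp w => ?_⟩
  have hp2 : p ∈ ball (0 : Vd d) 2 := closedBall_subset_ball (by norm_num) hp
  rcases eq_or_ne w 0 with rfl | hw
  · have h1 := coef_smul hX n χ hp2 0 0
    rw [zero_smul, norm_zero, zero_mul] at h1
    rw [h1, norm_zero, mul_zero]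
  · have hw0 : ‖w‖ ≠ 0 := norm_ne_zero_iff.2 hw
    have h1 : w = ((‖w‖ : ℝ) : ℂ) • (((‖w‖ : ℝ) : ℂ)⁻¹ • w) := by
      rw [smul_smul, mul_inv_cancel₀ (by exact_mod_cast hw0), one_smul]
    have h2 : ‖(((‖w‖ : ℝ) : ℂ)⁻¹ • w)‖ = 1 := by
      rw [norm_smul, norm_inv, Complex.norm_real, norm_norm, inv_mul_cancel₀ hw0]
    rw [h1, coef_smul hX n χ hp2, Complex.norm_real, norm_norm, ← h1, mul_comm]
    refine mul_le_mul_of_nonneg_right ?_ (norm_nonneg _)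
    exact ((le_abs_self _).trans (hC (p, _) ⟨hp, by rw [mem_sphere_zero_iff_norm]; exact h2⟩)).trans (le_max_left _ _)

/-- A pseudo-length is bounded by the Fubini-Study length. -/
theorem length_bound (hX : IsCone X) (hch : Charts d X) (n : PseudoLength X) :
    ∃ C : ℝ, 0 < C ∧ ∀ x v, Tan X x v → n.toFun x v ≤ C * fs x v := by
  classical
  obtain ⟨S, hS⟩ : ∃ S : Set (EN N), S = sphere (0 : EN N) 1 ∩ insert 0 X := ⟨_, rfl⟩
  have hcomp : IsCompact S := by rw [hS]; exact (isCompact_sphere _ _).inter_right hX.closed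
  have hSX : ∀ x ∈ S, x ∈ X := by
    intro x hx
    rw [hS] at hx
    rcases hx.2 with h | h
    · exfalso
      have := hx.1
      rw [mem_sphere_zero_iff_norm, h, norm_zero] at this
      exact zero_ne_one this
    · exact h
  have hloc : ∀ x ∈ S, ∃ C : ℝ, 0 ≤ C ∧ ∀ᶠ y in 𝓝 x, ∀ v, Tan X y v → n.toFun y v ≤ C * fs y v := by
    intro x hx
    have hxX := hSX x hx
    obtain ⟨χ, hχU, hχ0⟩ := hch x hxX
    obtain ⟨C₁, hC₁, h1⟩ := coef_bound hX n χ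
    obtain ⟨C₂, hC₂, h2, -⟩ := χ.exists_fs_bound hX
    refine ⟨C₁ * C₂, by positivity, ?_⟩
    have h3 : ∀ᶠ y in 𝓝 x, y ∈ χ.U := χ.isOpen_U.mem_nhds hχU
    have h4 : ∀ᶠ y in 𝓝 x, χ.q y ∈ closedBall (0 : Vd d) 1 := by
      have := (χ.q_an x hχU).continuousAt
      refine this.eventually ?_
      rw [hχ0]
      exact closedBall_mem_nhds _ one_pos
    filter_upwards [h3, h4] with y hy1 hy2 v hv
    rw [eq_coef hX n χ hv hy1]
    refine (h1 _ hy2 _).trans ?_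
    rw [mul_assoc]
    refine mul_le_mul_of_nonneg_left ?_ hC₁
    exact h2 y (tan_mem hv) hy1 (by simpa using hy2) v
  choose! C hC0 hC using hloc
  obtain ⟨t, htS, ht⟩ := hcomp.elim_nhds_subcover (fun x => {y | ∀ v, Tan X y v → n.toFun y v ≤ C x * fs y v})
    fun x hx => hC x hx
  have hfs0 : ∀ x v : EN N, 0 ≤ fs x v := fun x v => by
    unfold fs wd
    positivity
  refine ⟨∑ x ∈ t, C x + 1, ?_, fun x v hv => ?_⟩
  · have : 0 ≤ ∑ x ∈ t, C x := Finset.sum_nonneg fun x hx => hC0 x (htS x hx)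
    linarith
  · have hxX := tan_mem hv
    have hx0 : x ≠ 0 := hX.ne_zero hxX
    have hn : ‖x‖ ≠ 0 := norm_ne_zero_iff.2 hx0
    obtain ⟨c, hc⟩ : ∃ c : ℂ, c = (((‖x‖ : ℝ) : ℂ))⁻¹ := ⟨_, rfl⟩
    have hc0 : c ≠ 0 := by rw [hc]; exact inv_ne_zero (by exact_mod_cast hn)
    have h1 : n.toFun (c • x) (c • v) = n.toFun x v := n.scale x v hv c hc0
    have h2 : c • x ∈ S := by
      rw [hS]
      refine ⟨?_, Or.inr (hX.smul_mem x hxX c hc0)⟩
      rw [mem_sphere_zero_iff_norm, norm_smul, hc, norm_inv, Complex.norm_real, norm_norm, inv_mul_cancel₀ hn]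
    obtain ⟨y, hy, hy2⟩ := Set.mem_iUnion₂.1 (ht h2)
    have h3 : n.toFun (c • x) (c • v) ≤ C y * fs (c • x) (c • v) := hy2 _ (tan_smul hX hv hc0)
    rw [h1, fs_scale x v hc0] at h3
    refine h3.trans (mul_le_mul_of_nonneg_right ?_ (hfs0 _ _))
    have h5 : C y ≤ ∑ x ∈ t, C x := Finset.single_le_sum (f := C) (fun x hx => hC0 x (htS x hx)) hy
    linarith

end Pool.Agent.AD
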