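import Pool.Agent.AD.W.Resc
import Pool.Agent.H22.W.Zal

/-!
# AD W Zal: curves on discs with bounded length have bounded derivative

`n` is a nonpositively curved pseudo-length such that no nonconstant Brody curve has length zero.  The proof is the one of
`H22/W/Zal.lean`, with `rescale_disc`.
-/

set_option autoImplicit false

open Topology Filter Metric

namespace Pool.Agent.AD

open Pool.Agent.H36.BP (EN fs wd fs_nonneg fs_smul_right)
open Pool.Agent.H14.PP (IsCone Tan CurveAt IsOpenPart)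
open Pool.Agent.H62.EF (pr limit_curves)
open Pool.Agent.H22.W (PseudoLength isOpenPart_self tan_smul tan_mem tan_curve tan_entire)

variable {N : ℕ} {X : Set (EN N)}

/-- The chain rule for affine maps, at a point. -/
theorem comp_affine_at (n : PseudoLength X) {F : ℂ → EN N} {a b z : ℂ} (hF : CurveAt X F (b + a * z)) :
    n.toFun (F (b + a * z)) (deriv (fun ζ => F (b + a * ζ)) z) = ‖a‖ * n.toFun (F (b + a * z)) (deriv F (b + a * z)) := by
  have h1 : HasDerivAt (fun ζ : ℂ => b + a * ζ) a z := by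
    simpa using ((hasDerivAt_id z).const_mul a).const_add b
  have h2 : deriv (fun ζ => F (b + a * ζ)) z = a • deriv F (b + a * z) :=
    (hF.1.differentiableAt.hasDerivAt.scomp z h1).deriv
  rw [h2]
  exact n.smul _ _ (tan_curve hF) a

/-- The chain rule for affine maps, for the Fubini-Study length. -/
theorem fs_comp_affine_at {F : ℂ → EN N} {a b z : ℂ} (hF : DifferentiableAt ℂ F (b + a * z)) :
    fs (F (b + a * z)) (deriv (fun ζ => F (b + a * ζ)) z) = ‖a‖ * fs (F (b + a * z)) (deriv F (b + a * z)) := by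
  have h1 : HasDerivAt (fun ζ : ℂ => b + a * ζ) a z := by
    simpa using ((hasDerivAt_id z).const_mul a).const_add b
  have h2 : deriv (fun ζ => F (b + a * ζ)) z = a • deriv F (b + a * z) :=
    (hF.hasDerivAt.scomp z h1).deriv
  rw [h2, fs_smul_right]

theorem curveAt_of_on {F : ℂ → EN N} {U : Set ℂ} (hU : IsOpen U) (hF : DifferentiableOn ℂ F U) (hFX : ∀ z ∈ U, F z ∈ X) {z : ℂ}
    (hz : z ∈ U) : CurveAt X F z := by
  refine ⟨hF.analyticAt (hU.mem_nhds hz), ?_⟩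
  filter_upwards [hU.mem_nhds hz] with w hw using hFX w hw

/-- the length of the derivative is nonnegative -/
theorem length_nonneg (n : PseudoLength X) {F : ℂ → EN N} {z : ℂ} (hF : CurveAt X F z) : 0 ≤ n.toFun (F z) (deriv F z) :=
  n.nonneg _ _ (tan_curve hF)

theorem exists_bound_unit (hX : IsCone X) (n : PseudoLength X) (hNT : n.NoNullBrody) :
    ∃ K : ℝ, 0 < K ∧ ∀ F : ℂ → EN N, DifferentiableOn ℂ F (ball 0 1) → (∀ z ∈ ball (0 : ℂ) 1, F z ∈ X) →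
      (∀ z ∈ ball (0 : ℂ) 1, n.toFun (F z) (deriv F z) ≤ 1) → fs (F 0) (deriv F 0) ≤ K := by
  by_contra hcon
  push Not at hcon
  have hbig : ∀ k : ℕ, ∃ F : ℂ → EN N, DifferentiableOn ℂ F (ball 0 1) ∧ (∀ z ∈ ball (0 : ℂ) 1, F z ∈ X) ∧
      (∀ z ∈ ball (0 : ℂ) 1, n.toFun (F z) (deriv F z) ≤ 1) ∧ 4 * ((k : ℝ) + 1) < fs (F 0) (deriv F 0) := fun k => hcon _ (by positivity)
  choose F hFd hFX hFn hFb using hbig
  have hX0 : ∀ x ∈ X, x ≠ 0 := fun x hx h => hX.zero_notMem (h ▸ hx)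
  have hresc := fun k : ℕ => rescale_disc (hFd k) (fun z hz => hX0 _ (hFX k z hz)) k (hFb k)
  choose z₀ a ha hin h1 h2 using hresc
  have ha0 : ∀ k, 0 < a k := fun k => lt_trans (by positivity) (ha k)
  have hin' : ∀ k : ℕ, ∀ ζ ∈ ball (0 : ℂ) ((k : ℝ) + 1), z₀ k + (((a k)⁻¹ : ℝ) : ℂ) * ζ ∈ ball (0 : ℂ) 1 := by
    intro k ζ hζ
    rw [mem_ball_zero_iff]
    have := hin k ζ hζ
    linarith
  set G : ℕ → ℂ → EN N := fun k ζ => F k (z₀ k + (((a k)⁻¹ : ℝ) : ℂ) * ζ) with hGdef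
  have hFc : ∀ k : ℕ, ∀ ζ ∈ ball (0 : ℂ) ((k : ℝ) + 1), CurveAt X (F k) (z₀ k + (((a k)⁻¹ : ℝ) : ℂ) * ζ) := fun k ζ hζ =>
    curveAt_of_on isOpen_ball (hFd k) (hFX k) (hin' k ζ hζ)
  have hGd : ∀ k : ℕ, DifferentiableOn ℂ (G k) (ball 0 ((k : ℝ) + 1)) := by
    intro k
    refine (hFd k).comp ((differentiable_id.const_mul _).const_add _).differentiableOn ?_
    intro ζ hζ
    exact hin' k ζ hζ
  have hGX : ∀ k : ℕ, ∀ ζ ∈ ball (0 : ℂ) ((k : ℝ) + 1), G k ζ ∈ X := fun k ζ hζ => hFX k _ (hin' k ζ hζ)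
  have hGc : ∀ k : ℕ, ∀ ζ ∈ ball (0 : ℂ) ((k : ℝ) + 1), CurveAt X (G k) ζ := fun k ζ hζ =>
    curveAt_of_on isOpen_ball (hGd k) (hGX k) hζ
  have hG1 : ∀ k : ℕ, fs (G k 0) (deriv (G k) 0) = 1 := by
    intro k
    have := h1 k
    rw [hGdef]
    simpa only [mul_zero, add_zero] using this
  have hGn : ∀ k : ℕ, ∀ ζ ∈ ball (0 : ℂ) ((k : ℝ) + 1), n.toFun (G k ζ) (deriv (G k) ζ) ≤ (a k)⁻¹ := by
    intro k ζ hζ
    have h3 := comp_affine_at n (hFc k ζ hζ)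
    rw [show n.toFun (G k ζ) (deriv (G k) ζ) = _ from h3, Complex.norm_real, Real.norm_of_nonneg (inv_nonneg.mpr (ha0 k).le)]
    calc (a k)⁻¹ * _ ≤ (a k)⁻¹ * 1 := mul_le_mul_of_nonneg_left (hFn k _ (hin' k ζ hζ)) (inv_nonneg.mpr (ha0 k).le)
      _ = (a k)⁻¹ := mul_one _
  have hGn0 : ∀ k : ℕ, ∀ ζ ∈ ball (0 : ℂ) ((k : ℝ) + 1), 0 ≤ n.toFun (G k ζ) (deriv (G k) ζ) := fun k ζ hζ => length_nonneg n (hGc k ζ hζ)
  set 𝒰 : Ultrafilter ℕ := hyperfilter ℕ with h𝒰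
  have hle : (𝒰 : Filter ℕ) ≤ atTop := Nat.hyperfilter_le_atTop
  have hρ : Tendsto (fun k : ℕ => (k : ℝ) + 1) 𝒰 atTop :=
    (tendsto_atTop_add_const_right _ _ tendsto_natCast_atTop_atTop).mono_left hle
  have hainv : Tendsto (fun k => (a k)⁻¹) 𝒰 (𝓝 0) := by
    have h3 : Tendsto a 𝒰 atTop := by
      refine tendsto_atTop_mono (fun k => ?_) hρ
      have := ha k
      have h4 : (0 : ℝ) ≤ k := Nat.cast_nonneg k
      linarith
    exact tendsto_inv_atTop_zero.comp h3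
  obtain ⟨H, hH, hHX, hpr, hfs, hloc⟩ := limit_curves hX (L := 2) two_pos 𝒰 G (fun k : ℕ => (k : ℝ) + 1) hρ
    (Eventually.of_forall fun k => ⟨hGd k, fun z hz => ⟨hGX k z hz, h2 k z hz⟩⟩)
  have hH0 : ∀ z, H z ≠ 0 := fun z => hX0 _ (hHX z)
  have hone : fs (H 0) (deriv H 0) = 1 := by
    have h3 := hfs 0
    simp only [hG1] at h3
    exact (tendsto_nhds_unique h3 tendsto_const_nhds)
  have htwo : ∀ z, fs (H z) (deriv H z) ≤ 2 := by
    intro z
    refine le_of_tendsto (hfs z) ?_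
    filter_upwards [hρ.eventually_gt_atTop ‖z‖] with k hk
    exact h2 k z (by rwa [mem_ball_zero_iff])
  have hn0 : ∀ z, n.toFun (H z) (deriv H z) = 0 := by
    intro z
    obtain ⟨r, φ, ψ, hr, hφ, hψ, hψH, hlim⟩ := hloc z
    have hz : z ∈ ball z r := mem_ball_self hr
    have hnb : ball z r ∈ 𝓝 z := isOpen_ball.mem_nhds hz
    have hψX : ∀ w ∈ ball z r, ψ w ∈ X := by
      intro w hw
      obtain ⟨c, hc, h3⟩ := hψH w hw
      rw [h3]
      exact hX.smul_mem _ (hHX w) c hc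
    have hbig : ∀ᶠ k : ℕ in (𝒰 : Filter ℕ), ∀ w ∈ ball z r, w ∈ ball (0 : ℂ) ((k : ℝ) + 1) := by
      filter_upwards [hρ.eventually_ge_atTop (‖z‖ + r)] with k hk w hw
      rw [mem_ball_zero_iff]
      rw [mem_ball, dist_eq_norm] at hw
      calc ‖w‖ = ‖(w - z) + z‖ := by rw [sub_add_cancel]
        _ ≤ ‖w - z‖ + ‖z‖ := norm_add_le _ _
        _ < (k : ℝ) + 1 := by linarith
    have hφX : ∀ᶠ k in (𝒰 : Filter ℕ), DifferentiableOn ℂ (φ k) (ball z r) ∧ ∀ w ∈ ball z r, φ k w ∈ X := by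
      filter_upwards [hφ, hbig] with k hk hkb
      refine ⟨hk.1, fun w hw => ?_⟩
      obtain ⟨c, hc, h3⟩ := hk.2 w hw
      rw [h3]
      exact hX.smul_mem _ (hGX k w (hkb w hw)) c hc
    have h3 := n.tendsto_curve hr hφX hψ hψX hlim
    have h4 : ∀ᶠ k in (𝒰 : Filter ℕ), 0 ≤ n.toFun (φ k z) (deriv (φ k) z) ∧ n.toFun (φ k z) (deriv (φ k) z) ≤ (a k)⁻¹ := by
      filter_upwards [hφ, hφX, hbig] with k hk hk2 hkb
      have h5 : n.toFun (φ k z) (deriv (φ k) z) = n.toFun (G k z) (deriv (G k) z) := by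
        refine n.lift_eq hX ⟨hk.1.analyticAt hnb, ?_⟩ (hGc k z (hkb z hz)) ?_
        · filter_upwards [hnb] with w hw using hk2.2 w hw
        · filter_upwards [hnb] with w hw using hk.2 w hw
      rw [h5]
      exact ⟨hGn0 k z (hkb z hz), hGn k z (hkb z hz)⟩
    have h6 : n.toFun (ψ z) (deriv ψ z) = 0 := by
      have h7 : Tendsto (fun k => n.toFun (φ k z) (deriv (φ k) z)) 𝒰 (𝓝 0) :=
        squeeze_zero' (h4.mono fun k hk => hk.1) (h4.mono fun k hk => hk.2) hainv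
      exact tendsto_nhds_unique h3 h7
    rw [← h6]
    symm
    refine n.lift_eq hX ⟨hψ.analyticAt hnb, ?_⟩ ⟨hH.analyticAt z, Eventually.of_forall hHX⟩ ?_
    · filter_upwards [hnb] with w hw using hψX w hw
    · filter_upwards [hnb] with w hw using hψH w hw
  have hK : ∀ z w, ∃ c : ℂ, H (0 + (1 / 2 : ℂ) * z) = c • H (0 + (1 / 2 : ℂ) * w) := by
    have hd : Differentiable ℂ (fun z : ℂ => H (0 + (1 / 2 : ℂ) * z)) := hH.comp ((differentiable_id.const_mul _).const_add _)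
    have hder : ∀ z, deriv (fun ζ : ℂ => H (0 + (1 / 2 : ℂ) * ζ)) z = (1 / 2 : ℂ) • deriv H (0 + (1 / 2 : ℂ) * z) := by
      intro z
      have h3 : HasDerivAt (fun ζ : ℂ => 0 + (1 / 2 : ℂ) * ζ) (1 / 2 : ℂ) z := by
        simpa using ((hasDerivAt_id z).const_mul (1 / 2 : ℂ)).const_add 0
      exact ((hH (0 + (1 / 2 : ℂ) * z)).hasDerivAt.scomp z h3).deriv
    refine hNT (fun z : ℂ => H (0 + (1 / 2 : ℂ) * z)) hd (fun z => hHX _) ?_ ?_
    · intro z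
      rw [hder z, Pool.Agent.H36.BP.fs_smul_right]
      have h3 := htwo (0 + (1 / 2 : ℂ) * z)
      have h4 : ‖(1 / 2 : ℂ)‖ = 1 / 2 := by norm_num
      rw [h4]
      linarith
    · intro z
      rw [n.comp_affine hH hHX (1 / 2 : ℂ) 0 z, hn0, mul_zero]
  obtain ⟨b, hb⟩ := Pool.Agent.H36.BP.Brody_deriv_line (hH 0) (fun z => by
    have h3 := hK (2 * z) 0
    simpa using h3)
  have h3 : wd (H 0) (deriv H 0) = 0 := (Pool.Agent.H36.BP.wd_eq_zero (hH0 0)).mpr ⟨b, hb⟩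
  unfold fs at hone
  rw [h3, zero_div] at hone
  exact zero_ne_one hone


/-- **Curves of bounded length on discs have bounded derivative.** -/
theorem exists_bound_disc (hX : IsCone X) (n : PseudoLength X) (hNT : n.NoNullBrody) :
    ∃ K : ℝ, 0 < K ∧ ∀ (F : ℂ → EN N) (z₀ : ℂ) (r M : ℝ), 0 < r → DifferentiableOn ℂ F (ball z₀ r) → (∀ z ∈ ball z₀ r, F z ∈ X) →
      (∀ z ∈ ball z₀ r, n.toFun (F z) (deriv F z) ≤ M) → fs (F z₀) (deriv F z₀) ≤ K * max M (1 / r) := by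
  obtain ⟨K, hK, hb⟩ := exists_bound_unit hX n hNT
  refine ⟨K, hK, fun F z₀ r M hr hF hFX hM => ?_⟩
  obtain ⟨t, ht⟩ : ∃ t : ℝ, t = max M (1 / r) := ⟨_, rfl⟩
  have htr : 1 / r ≤ t := by rw [ht]; exact le_max_right _ _
  have htM : M ≤ t := by rw [ht]; exact le_max_left _ _
  have ht0 : 0 < t := lt_of_lt_of_le (by positivity) htr
  have hsr : t⁻¹ ≤ r := by
    rw [inv_le_comm₀ ht0 hr]
    rwa [one_div] at htr
  have hin : ∀ ζ ∈ ball (0 : ℂ) 1, z₀ + ((t⁻¹ : ℝ) : ℂ) * ζ ∈ ball z₀ r := by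
    intro ζ hζ
    rw [mem_ball_zero_iff] at hζ
    rw [mem_ball_iff_norm, add_sub_cancel_left, norm_mul, Complex.norm_real, Real.norm_of_nonneg (inv_nonneg.2 ht0.le)]
    calc t⁻¹ * ‖ζ‖ < t⁻¹ * 1 := mul_lt_mul_of_pos_left hζ (inv_pos.2 ht0)
      _ ≤ r := by rw [mul_one]; exact hsr
  have hFc : ∀ ζ ∈ ball (0 : ℂ) 1, CurveAt X F (z₀ + ((t⁻¹ : ℝ) : ℂ) * ζ) := fun ζ hζ =>
    curveAt_of_on isOpen_ball hF hFX (hin ζ hζ)
  have h1 := hb (fun ζ => F (z₀ + ((t⁻¹ : ℝ) : ℂ) * ζ)) (hF.comp ((differentiable_id.const_mul _).const_add _).differentiableOn fun ζ hζ => hin ζ hζ)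
    (fun ζ hζ => hFX _ (hin ζ hζ)) (fun ζ hζ => by
      rw [comp_affine_at n (hFc ζ hζ), Complex.norm_real, Real.norm_of_nonneg (inv_nonneg.2 ht0.le), inv_mul_le_iff₀ ht0, mul_one]
      exact (hM _ (hin ζ hζ)).trans htM)
  have h00 : (0 : ℂ) ∈ ball (0 : ℂ) 1 := mem_ball_self one_pos
  have h3 : z₀ + ((t⁻¹ : ℝ) : ℂ) * 0 = z₀ := by rw [mul_zero, add_zero]
  rw [fs_comp_affine_at (hFc 0 h00).1.differentiableAt, Complex.norm_real, Real.norm_of_nonneg (inv_nonneg.2 ht0.le),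
    inv_mul_le_iff₀ ht0, h3] at h1
  rw [← ht, mul_comm]
  exact h1

end Pool.Agent.AD
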