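import Pool.Agent.H62.EF.Defs
import Pool.Agent.H36.BP.Resc
import Pool.Agent.H36.BP.WdA

/-!
# AD W Resc: rescaling of a curve on the unit disc

The proof of `Pool.Agent.H62.EF.rescale_fs` for curves on the open unit disc.
-/

set_option autoImplicit false

open Topology Filter Metric

namespace Pool.Agent.AD

open Pool.Agent.H36.BP (EN fs wd wd_cont fs_nonneg fs_smul_right)

variable {N : ℕ}

theorem rescale_disc {F : ℂ → EN N} (hF : DifferentiableOn ℂ F (ball 0 1)) (h0 : ∀ z ∈ ball (0 : ℂ) 1, F z ≠ 0) (n : ℕ)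
    (hbig : 4 * ((n : ℝ) + 1) < fs (F 0) (deriv F 0)) :
    ∃ (z₀ : ℂ) (a : ℝ), 4 * ((n : ℝ) + 1) < a ∧ (∀ ζ ∈ ball (0 : ℂ) (n + 1), ‖z₀ + ((a⁻¹ : ℝ) : ℂ) * ζ‖ ≤ 1 / 2) ∧
      fs (F z₀) (deriv (fun ζ => F (z₀ + ((a⁻¹ : ℝ) : ℂ) * ζ)) 0) = 1 ∧
      ∀ ζ ∈ ball (0 : ℂ) (n + 1), fs (F (z₀ + ((a⁻¹ : ℝ) : ℂ) * ζ)) (deriv (fun ζ => F (z₀ + ((a⁻¹ : ℝ) : ℂ) * ζ)) ζ) ≤ 2 := by
  have hn : (0 : ℝ) ≤ n := Nat.cast_nonneg n
  have hsub : closedBall (0 : ℂ) (1 / 2) ⊆ ball 0 1 := closedBall_subset_ball (by norm_num)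
  have hFc : ContinuousOn F (closedBall (0 : ℂ) (1 / 2)) := hF.continuousOn.mono hsub
  have hF'c : ContinuousOn (deriv F) (closedBall (0 : ℂ) (1 / 2)) := (hF.deriv isOpen_ball).continuousOn.mono hsub
  have hgc : ContinuousOn (fun z : ℂ => fs (F z) (deriv F z)) (closedBall (0 : ℂ) (1 / 2)) := by
    unfold fs
    refine (wd_cont.comp_continuousOn (hFc.prodMk hF'c)).div (hFc.norm.pow 2) ?_
    intro z hz
    exact pow_ne_zero 2 (norm_ne_zero_iff.mpr (h0 z (hsub hz)))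
  set u : ℂ → ℝ := fun z => fs (F z) (deriv F z) * (1 / 2 - ‖z‖) with hu
  have huc : ContinuousOn u (closedBall (0 : ℂ) (1 / 2)) := hgc.mul (continuous_const.sub continuous_norm).continuousOn
  obtain ⟨z₀, hz₀, hmax⟩ := (isCompact_closedBall (0 : ℂ) (1 / 2)).exists_isMaxOn ⟨0, by simp⟩ huc
  have hz₀n : ‖z₀‖ ≤ 1 / 2 := by simpa using hz₀
  have hu0z : u 0 ≤ u z₀ := hmax (by simp : (0 : ℂ) ∈ closedBall (0 : ℂ) (1 / 2))
  have hu0 : u 0 = fs (F 0) (deriv F 0) / 2 := by simp only [hu, norm_zero]; ring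
  have hm : 2 * ((n : ℝ) + 1) < u z₀ := by rw [hu0] at hu0z; linarith
  set d : ℝ := 1 / 2 - ‖z₀‖ with hd
  have hd0 : 0 ≤ d := by rw [hd]; linarith
  set a : ℝ := fs (F z₀) (deriv F z₀) with ha
  have ha0 : 0 ≤ a := fs_nonneg _ _
  have huz : u z₀ = a * d := rfl
  have hpos : 0 < a * d := by rw [← huz]; linarith
  have hapos : 0 < a := by
    rcases ha0.lt_or_eq with h | h
    · exact h
    · rw [← h] at hpos; simp at hpos
  have hdpos : 0 < d := by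
    rcases hd0.lt_or_eq with h | h
    · exact h
    · rw [← h] at hpos; simp at hpos
  have hd2 : d ≤ 1 / 2 := by rw [hd]; linarith [norm_nonneg z₀]
  have haL : 4 * ((n : ℝ) + 1) < a := by
    have h1 : a * d ≤ a * (1 / 2) := mul_le_mul_of_nonneg_left hd2 ha0
    rw [huz] at hm
    linarith
  set φ : ℂ → ℂ := fun ζ => z₀ + ((a⁻¹ : ℝ) : ℂ) * ζ with hφ
  have hφd : ∀ ζ, HasDerivAt φ ((a⁻¹ : ℝ) : ℂ) ζ := by
    intro ζ
    have := ((hasDerivAt_id ζ).const_mul ((a⁻¹ : ℝ) : ℂ)).const_add z₀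
    simpa [hφ] using this
  have hkey : ∀ ζ ∈ ball (0 : ℂ) (n + 1), ‖φ ζ‖ ≤ 1 / 2 - d / 2 := by
    intro ζ hζ
    have hζn : ‖ζ‖ < n + 1 := by simpa using hζ
    have h1 : ‖φ ζ‖ ≤ ‖z₀‖ + a⁻¹ * ‖ζ‖ := by
      calc ‖φ ζ‖ ≤ ‖z₀‖ + ‖((a⁻¹ : ℝ) : ℂ) * ζ‖ := norm_add_le _ _
        _ = ‖z₀‖ + a⁻¹ * ‖ζ‖ := by
          rw [norm_mul, Complex.norm_real, Real.norm_of_nonneg (by positivity)]
    have h2 : a⁻¹ * ‖ζ‖ ≤ d / 2 := by
      rw [inv_mul_le_iff₀ hapos]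
      rw [huz] at hm
      linarith
    have h3 : ‖z₀‖ = 1 / 2 - d := by rw [hd]; ring
    linarith
  have hball : ∀ ζ ∈ ball (0 : ℂ) (n + 1), φ ζ ∈ closedBall (0 : ℂ) (1 / 2) := by
    intro ζ hζ
    have := hkey ζ hζ
    rw [mem_closedBall_zero_iff]
    linarith
  have hder : ∀ ζ ∈ ball (0 : ℂ) (n + 1), deriv (fun ζ => F (φ ζ)) ζ = ((a⁻¹ : ℝ) : ℂ) • deriv F (φ ζ) := by
    intro ζ hζ
    have h1 : DifferentiableAt ℂ F (φ ζ) := hF.differentiableAt (isOpen_ball.mem_nhds (hsub (hball ζ hζ)))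
    exact (h1.hasDerivAt.scomp ζ (hφd ζ)).deriv
  have hfs : ∀ ζ ∈ ball (0 : ℂ) (n + 1), fs (F (φ ζ)) (deriv (fun ζ => F (φ ζ)) ζ) = a⁻¹ * fs (F (φ ζ)) (deriv F (φ ζ)) := by
    intro ζ hζ
    rw [hder ζ hζ, fs_smul_right, Complex.norm_real, Real.norm_of_nonneg (by positivity)]
  have hφ0 : φ 0 = z₀ := by simp [hφ]
  refine ⟨z₀, a, haL, fun ζ hζ => ?_, ?_, ?_⟩
  · have h1 := hkey ζ hζ
    have h2 : ‖z₀ + ((a⁻¹ : ℝ) : ℂ) * ζ‖ ≤ 1 / 2 - d / 2 := h1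
    linarith
  · have h1 := hfs 0 (mem_ball_self (by positivity))
    rw [hφ0, ← ha, inv_mul_cancel₀ hapos.ne'] at h1
    exact h1
  · intro ζ hζ
    change fs (F (φ ζ)) (deriv (fun ζ => F (φ ζ)) ζ) ≤ 2
    rw [hfs ζ hζ]
    have h1 : u (φ ζ) ≤ u z₀ := hmax (hball ζ hζ)
    have h2 := hkey ζ hζ
    have h3 : fs (F (φ ζ)) (deriv F (φ ζ)) * (1 / 2 - ‖φ ζ‖) ≤ a * d := h1
    have h4 : 0 ≤ fs (F (φ ζ)) (deriv F (φ ζ)) := fs_nonneg _ _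
    have h5 : fs (F (φ ζ)) (deriv F (φ ζ)) * (d / 2) ≤ a * d :=
      le_trans (mul_le_mul_of_nonneg_left (by linarith) h4) h3
    have h6 : fs (F (φ ζ)) (deriv F (φ ζ)) ≤ 2 * a := by
      by_contra hc
      push Not at hc
      have : 2 * a * (d / 2) < fs (F (φ ζ)) (deriv F (φ ζ)) * (d / 2) := mul_lt_mul_of_pos_right hc (by linarith)
      linarith
    rw [inv_mul_le_iff₀ hapos]
    linarith

end Pool.Agent.AD
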